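import Pool.Agent.H34.PT.Bdd
import Pool.Agent.H86.BCP.Jung
import Pool.Graph.R_pool_sql_team_seeded_35f281b4.K7.H10.PA.Org

/-!
# Automorphisms of the affine plane over rings in the Farrell-Jones class
-/

set_option autoImplicit false

namespace Pool.Agent.H86.FJP

open Pool.Agent.Y110.FJ (ClosedE)
open Pool.Agent.K7.H87.FJ2 (ext_solv)
open Pool.Agent.H34.PT (AcylClosed)
open Pool.Agent.K7.H10.PA
open Pool.Agent.R684.FP
open MvPolynomial Matrix

variable {C : ∀ (G : Type) [Group G], Prop}

/-- noetherian rings -/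
theorem noeth (hC : ClosedE C) (hS : ∀ (S : Type) [Group S], Group.IsSolvable S → C S)
    {S : Type} [CommRing S] [IsNoetherianRing S] {G : Type} [Group G]
    (a : G →* Aut2 S) (ha : Function.Injective a)
    (hK : ∀ P ∈ minimalPrimes S, ∃ (K : Type) (_ : Field K) (f : S →+* K), RingHom.ker f = P ∧
      ∃ M : Subgroup (Aut2 K), C M ∧ ∀ g, bc f (a g) ∈ M) : C G := by
  have hfin : Finite (minimalPrimes S) := (minimalPrimes.finite_of_isNoetherianRing S).to_subtype
  choose K hKf f hf M hCM hM using fun P : minimalPrimes S => hK P.1 P.2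
  let Φ : G →* ∀ P : minimalPrimes S, M P :=
    MonoidHom.pi fun P => ((bc (f P)).comp a).codRestrict (M P) (hM P)
  have h1 := Pool.Agent.R615.SC.pi_finite hC.base (minimalPrimes S) (fun P => M P) hCM
  have h2 : C (G ⧸ Φ.ker) :=
    hC.base.of_injective _ _ (QuotientGroup.kerLift Φ) (QuotientGroup.kerLift_injective Φ) h1
  refine ext_solv hC hS Φ.ker ?_ h2
  obtain ⟨n, hn⟩ := IsNoetherianRing.isNilpotent_nilradical S
  have hs := nil_solv n S (nilradical S) hn
  have hmem : ∀ g : Φ.ker, a g.1 ∈ (bc (Ideal.Quotient.mk (nilradical S))).ker := by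
    intro g
    rw [mem_ker_bc]
    intro i m
    have h3 : nilradical S = sInf (minimalPrimes S) :=
      (Ideal.sInf_minimalPrimes (I := (⊥ : Ideal S))).symm
    rw [h3, Submodule.mem_sInf]
    intro q hq
    have h4 : ((bc (f ⟨q, hq⟩)).comp a).codRestrict (M ⟨q, hq⟩) (hM ⟨q, hq⟩) g.1 = 1 :=
      congrFun g.2 ⟨q, hq⟩
    have h5 : bc (f ⟨q, hq⟩) (a g.1) = 1 := congrArg Subtype.val h4
    have h6 : MvPolynomial.map (f ⟨q, hq⟩) (a g.1 (X i)) = X i := by
      rw [← bc_X, h5]
      rfl
    have h7 : f ⟨q, hq⟩ (coeff m (a g.1 (X i) - X i)) = 0 := by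
      rw [← coeff_map, map_sub, h6, MvPolynomial.map_X, sub_self, coeff_zero]
    have h8 : coeff m (a g.1 (X i) - X i) ∈ RingHom.ker (f ⟨q, hq⟩) := h7
    rwa [hf ⟨q, hq⟩] at h8
  refine Group.isSolvable_of_isSolvable_injective (G' :=
    (bc (Ideal.Quotient.mk (nilradical S))).ker)
    (f := (a.comp Φ.ker.subtype).codRestrict _ hmem) ?_
  rw [injective_iff_map_eq_one]
  intro g hg
  have h8 : a g.1 = 1 := congrArg Subtype.val hg
  exact Subtype.ext (ha (by rw [h8, OneMemClass.coe_one, map_one]))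

/-- minimal primes of subrings are contractions of minimal primes -/
theorem exists_min {A : Type} [CommRing A] (S : Subring A) (P : Ideal S) (hP : P ∈ minimalPrimes S) :
    ∃ Q ∈ minimalPrimes A, Q.comap S.subtype = P := by
  obtain ⟨Q, hQ, hQP⟩ := Ideal.exists_comap_eq_of_mem_minimalPrimes_of_injective
    S.subtype_injective P hP
  obtain ⟨Q', hQ', hle⟩ := Ideal.exists_minimalPrimes_le (I := (⊥ : Ideal A)) (J := Q) bot_le
  refine ⟨Q', hQ', ?_⟩
  have : Q'.IsPrime := hQ'.1.1
  have h1 : Q'.comap S.subtype ≤ P := by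
    rw [← hQP]
    exact Ideal.comap_mono hle
  exact le_antisymm h1 (hP.2 ⟨inferInstance, bot_le⟩ h1)

/-- every minimal prime ideal of `A` is the kernel of a homomorphism to a field `K` such that either
`K` has characteristic zero and `GL₂(K)` is in the class, or all finitely generated subrings of `K`
are finite -/
def Good (C : ∀ (G : Type) [Group G], Prop) (A : Type) [CommRing A] : Prop :=
  ∀ Q ∈ minimalPrimes A, ∃ (K : Type) (_ : Field K) (f : A →+* K), RingHom.ker f = Q ∧
    ((CharZero K ∧ C (GL (Fin 2) K)) ∨ LocFin K)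

theorem exists_M (hC : ClosedE C) (hA : AcylClosed C) (hF : FbC C)
    (hS : ∀ (S : Type) [Group S], Group.IsSolvable S → C S) {A : Type} [CommRing A]
    (h : Good C A) (Q : Ideal A) (hQ : Q ∈ minimalPrimes A) :
    ∃ (K : Type) (_ : Field K) (f : A →+* K), RingHom.ker f = Q ∧
      ∃ M : Subgroup (Aut2 K), C M ∧ (∀ φ ∈ TA A, bc f φ ∈ M) := by
  obtain ⟨K, _, f, hf, ⟨h1, h2⟩ | h⟩ := h Q hQ
  · refine ⟨K, inferInstance, f, hf, Tame _, ?_, fun φ hφ => hφ _ _⟩
    exact Pool.Agent.H34.PT.tame_mem' hC hA hS h2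
  · refine ⟨K, inferInstance, f, hf, TA _, ?_, fun φ hφ => TA_bc _ hφ⟩
    exact locfin hC hF hS h

/-- **rings** -/
theorem ring (hC : ClosedE C) (hA : AcylClosed C) (hF : FbC C)
    (hS : ∀ (S : Type) [Group S], Group.IsSolvable S → C S) {A : Type} [CommRing A]
    (h : Good C A) : C (TA A) := by
  classical
  refine Pool.Agent.Y430.SS.of_directed hC.base (TA A) (Finset A)
    (fun i j => ⟨i ∪ j, Finset.subset_union_left, Finset.subset_union_right⟩)
    (fun s => ((bc (Subring.closure (s : Set A)).subtype).range).comap (TA A).subtype)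
    (fun s t h => Subgroup.comap_mono (Pool.Agent.H86.BCP.range_mono
      (Subring.closure_mono (by exact_mod_cast h)))) ?_ ?_
  · intro p
    exact Pool.Agent.H86.BCP.exists_sub p.1
  · intro s
    obtain ⟨S, hS'⟩ : ∃ S : Subring A, S = Subring.closure (s : Set A) := ⟨_, rfl⟩
    have : IsNoetherianRing S := by
      rw [hS']
      exact is_noetherian_subring_closure (s : Set A) s.finite_toSet
    rw [← hS']
    have hi : Function.Injective (bc S.subtype) := bc_injective S.subtype_injective
    let e := MonoidHom.ofInjective hi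
    let a : ((bc S.subtype).range).comap (TA A).subtype →* Aut2 S :=
      e.symm.toMonoidHom.comp (((TA A).subtype.comp (Subgroup.subtype _)).codRestrict _
        fun p => p.2)
    have ha : ∀ p, bc S.subtype (a p) = p.1.1 := by
      intro p
      have h1 : e (a p) = ⟨p.1.1, p.2⟩ := e.apply_symm_apply _
      exact congrArg Subtype.val h1
    refine noeth hC hS a ?_ ?_
    · intro p q hpq
      refine Subtype.ext (Subtype.ext ?_)
      rw [← ha, ← ha, hpq]
    · intro P hP
      obtain ⟨Q, hQ, hQP⟩ := exists_min S P hP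
      obtain ⟨K, _, f, hf, M, hM, hTA⟩ := exists_M hC hA hF hS h Q hQ
      refine ⟨K, inferInstance, f.comp S.subtype, ?_, M, hM, fun p => ?_⟩
      · rw [← hQP]
        ext x
        have h8 : S.subtype x ∈ RingHom.ker f ↔ S.subtype x ∈ Q := by rw [hf]
        exact h8
      · rw [← bc_bc, ha]
        exact hTA _ p.1.2

end Pool.Agent.H86.FJP
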