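import Pool.Agent.H86.FJP.Ring

/-!
# Semilinear automorphisms of the affine plane over rings
-/

set_option autoImplicit false

namespace Pool.Agent.H86.FJP

open Pool.Agent.Y110.FJ (ClosedE)
open Pool.Agent.H34.PT (AcylClosed)
open Pool.Agent.K7.H10.PA
open Pool.Agent.R684.FP
open MvPolynomial Matrix

variable {C : ∀ (G : Type) [Group G], Prop}

section

variable {A : Type} [CommRing A] {G : Type} [Group G]
  (ρ : G →* RingAut (MvPolynomial (Fin 2) A)) (σ : G →* RingAut A)

/-- the polynomials with coefficients in a subring -/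
noncomputable abbrev Pol (S : Subring A) : Subring (MvPolynomial (Fin 2) A) :=
  (MvPolynomial.map (σ := Fin 2) S.subtype).range

theorem mem_Pol {S : Subring A} {p : MvPolynomial (Fin 2) A} (h : ∀ m, coeff m p ∈ S) :
    p ∈ Pol S := by
  have : p ∈ Set.range (MvPolynomial.map S.subtype : MvPolynomial (Fin 2) S →
      MvPolynomial (Fin 2) A) := by
    rw [mem_range_map_iff_coeffs_subset]
    intro c hc
    obtain ⟨m, _, rfl⟩ := mem_coeffs_iff.1 (Finset.mem_coe.1 hc)
    exact ⟨⟨_, h m⟩, rfl⟩
  exact this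

/-- the elements which preserve the polynomials with coefficients in a subring -/
theorem pres (hρ : ∀ g a, ρ g (MvPolynomial.C a) = MvPolynomial.C (σ g a)) {S : Subring A}
    (hS : ∀ g, ∀ a ∈ S, σ g a ∈ S) {g : G} (h : ∀ q, ρ g (X q) ∈ Pol S) :
    ∀ p ∈ Pol S, ρ g p ∈ Pol S := by
  rintro _ ⟨p, rfl⟩
  induction p using MvPolynomial.induction_on with
  | C r =>
    rw [MvPolynomial.map_C, hρ]
    exact ⟨MvPolynomial.C ⟨σ g (S.subtype r), hS g _ r.2⟩, by rw [MvPolynomial.map_C]; rfl⟩
  | add p q hp hq =>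
    rw [map_add, map_add]
    exact add_mem hp hq
  | mul_X p i hp =>
    rw [map_mul, map_mul, MvPolynomial.map_X]
    exact mul_mem hp (h i)

/-- restriction to a subring which is fixed -/
theorem exists_res (hρ : ∀ g a, ρ g (MvPolynomial.C a) = MvPolynomial.C (σ g a)) {S : Subring A}
    {g : G} (hfix : ∀ a ∈ S, σ g a = a) (h : ∀ p ∈ Pol S, ρ g p ∈ Pol S)
    (h' : ∀ p ∈ Pol S, ρ g⁻¹ p ∈ Pol S) :
    ∃ ψ : Aut2 S, ∀ p, MvPolynomial.map S.subtype (ψ p) = ρ g (MvPolynomial.map S.subtype p) := by
  have hX : ∀ q : Fin 2, (X q : MvPolynomial (Fin 2) A) ∈ Pol S := fun q =>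
    ⟨X q, MvPolynomial.map_X _ _⟩
  have hfix' : ∀ a ∈ S, σ g⁻¹ a = a := by
    intro a ha
    have h1 : σ g⁻¹ (σ g a) = a := by
      rw [← RingAut.mul_apply, ← map_mul, inv_mul_cancel, map_one, RingAut.one_apply]
    rw [hfix a ha] at h1
    exact h1
  choose c hc using fun q => h _ (hX q)
  choose c' hc' using fun q => h' _ (hX q)
  have hinj := MvPolynomial.map_injective (σ := Fin 2) S.subtype S.subtype_injective
  have key : ∀ (k : G) (c : Fin 2 → MvPolynomial (Fin 2) S), (∀ a ∈ S, σ k a = a) →
      (∀ i, MvPolynomial.map S.subtype (c i) = ρ k (X i)) → ∀ p,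
      MvPolynomial.map S.subtype (aeval c p) = ρ k (MvPolynomial.map S.subtype p) := by
    intro k c hk hc p
    have h3 : (MvPolynomial.map S.subtype).comp ((aeval c : MvPolynomial (Fin 2) S →ₐ[S]
        MvPolynomial (Fin 2) S) : MvPolynomial (Fin 2) S →+* MvPolynomial (Fin 2) S) =
        ((ρ k : MvPolynomial (Fin 2) A ≃+* MvPolynomial (Fin 2) A) :
          MvPolynomial (Fin 2) A →+* MvPolynomial (Fin 2) A).comp (MvPolynomial.map S.subtype) := by
      apply MvPolynomial.ringHom_ext
      · intro r
        show MvPolynomial.map S.subtype (aeval c (MvPolynomial.C r)) =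
          ρ k (MvPolynomial.map S.subtype (MvPolynomial.C r))
        rw [MvPolynomial.map_C, hρ, aeval_C, MvPolynomial.algebraMap_eq, MvPolynomial.map_C]
        congr 1
        exact (hk _ r.2).symm
      · intro i
        show MvPolynomial.map S.subtype (aeval c (X i)) = ρ k (MvPolynomial.map S.subtype (X i))
        rw [aeval_X, MvPolynomial.map_X, hc]
    exact DFunLike.congr_fun h3 p
  have k1 := key g c hfix hc
  have k2 := key g⁻¹ c' hfix' hc'
  have r1 : ∀ x, ρ g (ρ g⁻¹ x) = x := fun x => by
    rw [← RingAut.mul_apply, ← map_mul, mul_inv_cancel, map_one, RingAut.one_apply]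
  have r2 : ∀ x, ρ g⁻¹ (ρ g x) = x := fun x => by
    rw [← RingAut.mul_apply, ← map_mul, inv_mul_cancel, map_one, RingAut.one_apply]
  have hab : (aeval c).comp (aeval c') = AlgHom.id S (MvPolynomial (Fin 2) S) := by
    apply MvPolynomial.algHom_ext
    intro i
    apply hinj
    rw [AlgHom.comp_apply, k1, k2, r1]
    rfl
  have hba : (aeval c').comp (aeval c) = AlgHom.id S (MvPolynomial (Fin 2) S) := by
    apply MvPolynomial.algHom_ext
    intro i
    apply hinj
    rw [AlgHom.comp_apply, k2, k1, r2]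
    rfl
  exact ⟨AlgEquiv.ofAlgHom (aeval c) (aeval c') hab hba, k1⟩

end

/-- **groups of ring automorphisms** -/
theorem semi (hC : ClosedE C) (hA : AcylClosed C)
    (hS : ∀ (S : Type) [Group S], Group.IsSolvable S → C S) {A : Type} [CommRing A] [Algebra ℚ A]
    (h : Good C A) {G : Type} [Group G]
    (ρ : G →* RingAut (MvPolynomial (Fin 2) A)) (σ : G →* RingAut A)
    (hρ : ∀ g a, ρ g (MvPolynomial.C a) = MvPolynomial.C (σ g a)) (hinj : Function.Injective ρ)
    (hfin : ∀ a : A, (Set.range fun g => σ g a).Finite) (hσ : C σ.range) : C G := by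
  classical
  refine Q30.FJ.of_fg hC.base G fun s => ?_
  let S₀ : Finset A := s.biUnion fun g => Finset.univ.biUnion fun q : Fin 2 =>
    (ρ g (X q)).coeffs ∪ (ρ g⁻¹ (X q)).coeffs
  let S₁ : Set A := ⋃ a ∈ S₀, Set.range fun g => σ g a
  have hS₁ : S₁.Finite := Set.Finite.biUnion S₀.finite_toSet fun a _ => hfin a
  have hS₁' : ∀ g, ∀ a ∈ S₁, σ g a ∈ S₁ := by
    intro g a ha
    obtain ⟨b, hb, k, rfl⟩ := Set.mem_iUnion₂.1 ha
    refine Set.mem_iUnion₂.2 ⟨b, hb, g * k, ?_⟩
    show σ (g * k) b = σ g (σ k b)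
    rw [map_mul, RingAut.mul_apply]
  obtain ⟨S, hSS⟩ : ∃ S : Subring A, S = Subring.closure S₁ := ⟨_, rfl⟩
  have : IsNoetherianRing S := by
    rw [hSS]
    exact is_noetherian_subring_closure S₁ hS₁
  have hinv : ∀ g, ∀ a ∈ S, σ g a ∈ S := by
    intro g
    have h1 : S ≤ S.comap ((σ g : A ≃+* A) : A →+* A) := by
      rw [hSS, Subring.closure_le]
      intro a ha
      exact Subring.subset_closure (hS₁' g a ha)
    exact h1
  have hsub : ∀ g ∈ s, ∀ q, ρ g (X q) ∈ Pol S ∧ ρ g⁻¹ (X q) ∈ Pol S := by
    intro g hg q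
    have key : ∀ (r : MvPolynomial (Fin 2) A), r.coeffs ⊆ S₀ → r ∈ Pol S := by
      intro r hr
      apply mem_Pol
      intro m
      by_cases h0 : coeff m r = 0
      · rw [h0]
        exact zero_mem _
      · rw [hSS]
        refine Subring.subset_closure (Set.mem_iUnion₂.2 ⟨_, hr (coeff_mem_coeffs m h0), 1, ?_⟩)
        show σ 1 (coeff m r) = _
        rw [map_one, RingAut.one_apply]
    constructor
    · refine key _ fun a ha => ?_
      exact Finset.mem_biUnion.2 ⟨g, hg, Finset.mem_biUnion.2 ⟨q, Finset.mem_univ _,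
        Finset.mem_union_left _ ha⟩⟩
    · refine key _ fun a ha => ?_
      exact Finset.mem_biUnion.2 ⟨g, hg, Finset.mem_biUnion.2 ⟨q, Finset.mem_univ _,
        Finset.mem_union_right _ ha⟩⟩
  have hpres : ∀ g ∈ Subgroup.closure (s : Set G), ∀ p ∈ Pol S, ρ g p ∈ Pol S := by
    intro g hg
    induction hg using Subgroup.closure_induction'' with
    | mem g hg => exact pres ρ σ hρ hinv fun q => (hsub g hg q).1
    | inv_mem g hg => exact pres ρ σ hρ hinv fun q => (hsub g hg q).2
    | one =>
      intro p hp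
      rw [map_one, RingAut.one_apply]
      exact hp
    | mul g k _ _ h1 h2 =>
      intro p hp
      rw [map_mul, RingAut.mul_apply]
      exact h1 _ (h2 _ hp)
  -- the permutations of the finite set
  have : Finite S₁ := hS₁
  let π : G →* Equiv.Perm S₁ := MonoidHom.mk' (fun g =>
    { toFun := fun x => ⟨σ g x, hS₁' g x x.2⟩
      invFun := fun x => ⟨σ g⁻¹ x, hS₁' g⁻¹ x x.2⟩
      left_inv := fun x => Subtype.ext (by
        show σ g⁻¹ (σ g x) = x
        rw [← RingAut.mul_apply, ← map_mul, inv_mul_cancel, map_one, RingAut.one_apply])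
      right_inv := fun x => Subtype.ext (by
        show σ g (σ g⁻¹ x) = x
        rw [← RingAut.mul_apply, ← map_mul, mul_inv_cancel, map_one, RingAut.one_apply]) })
    (fun g k => Equiv.ext fun x => Subtype.ext (by
      show σ (g * k) x = σ g (σ k x)
      rw [map_mul, RingAut.mul_apply]))
  obtain ⟨H, hH⟩ : ∃ H, H = Subgroup.closure (s : Set G) := ⟨_, rfl⟩
  rw [← hH] at hpres ⊢
  let K : Subgroup H := (π.comp H.subtype).ker
  refine hC.base.finiteIndex H K inferInstance ?_
  have hfix : ∀ k : K, ∀ a ∈ S, σ k.1.1 a = a := by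
    intro k
    have h1 : S ≤ RingHom.eqLocus ((σ k.1.1 : A ≃+* A) : A →+* A) (RingHom.id A) := by
      rw [hSS, Subring.closure_le]
      intro a ha
      have h2 : π k.1.1 = 1 := k.2
      have h3 := congrArg (fun z : Equiv.Perm S₁ => ((z ⟨a, ha⟩ : S₁) : A)) h2
      exact h3
    exact h1
  choose a ha using fun k : K => exists_res ρ σ hρ (hfix k) (hpres _ k.1.2)
    (hpres _ (inv_mem k.1.2))
  have hi := MvPolynomial.map_injective (σ := Fin 2) S.subtype S.subtype_injective
  let α : K →* Aut2 S := MonoidHom.mk' a (fun k l => aut_ext fun i => hi (by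
    rw [ha, AlgEquiv.mul_apply, ha, ha, Subgroup.coe_mul, Subgroup.coe_mul, map_mul,
      RingAut.mul_apply]))
  have hAut : C (Aut2 S) := by
    refine noeth hC hS (MonoidHom.id _) (fun _ _ h => h) ?_
    intro P hP
    obtain ⟨Q, hQ, hQP⟩ := exists_min S P hP
    obtain ⟨F, _, f, hf, hor⟩ := h Q hQ
    have hz : CharZero F :=
      (RingHom.charZero_iff ((f.comp (algebraMap ℚ A)).injective)).1 inferInstance
    have hGL : C (GL (Fin 2) F) := by
      rcases hor with h1 | h1
      · exact h1.2
      · exfalso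
        have h2 : ((Subring.closure ((∅ : Finset F) : Set F) : Subring F) : Set F).Finite := h1 ∅
        exact Set.infinite_of_injective_forall_mem (Nat.cast_injective (R := F))
          (fun n => natCast_mem _ n) h2
    refine ⟨F, inferInstance, f.comp S.subtype, ?_, Tame _,
      Pool.Agent.H34.PT.tame_mem' hC hA hS hGL, fun g => ?_⟩
    · rw [← hQP]
      ext x
      have h8 : S.subtype x ∈ RingHom.ker f ↔ S.subtype x ∈ Q := by rw [hf]
      exact h8
    · rw [Pool.Agent.H86.BCP.jung]
      trivial
  refine hC.base.of_injective K (Aut2 S × σ.range)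
    (α.prod (σ.rangeRestrict.comp (H.subtype.comp K.subtype))) ?_ (hC.base.prod _ _ hAut hσ)
  rw [injective_iff_map_eq_one]
  intro k hk
  have h1 : a k = 1 := congrArg Prod.fst hk
  have h2 : σ k.1.1 = 1 := congrArg (fun z : Aut2 S × σ.range => (z.2 : RingAut A)) hk
  have h3 : ρ k.1.1 = 1 := by
    apply RingEquiv.toRingHom_injective
    apply MvPolynomial.ringHom_ext
    · intro r
      show ρ k.1.1 (MvPolynomial.C r) = MvPolynomial.C r
      rw [hρ, h2]
      rfl
    · intro i
      show ρ k.1.1 (X i) = X i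
      have h4 := ha k (X i)
      rw [h1, MvPolynomial.map_X] at h4
      rw [← h4]
      exact MvPolynomial.map_X _ _
  exact Subtype.ext (Subtype.ext (hinj (h3.trans (map_one ρ).symm)))

/-- ring automorphisms of `K[x, y]` and the automorphisms of `K` -/
theorem exists_C {K : Type} [Field K] (φ : RingAut (MvPolynomial (Fin 2) K)) (a : K) :
    φ (MvPolynomial.C a) = MvPolynomial.C (constantCoeff (φ (MvPolynomial.C a))) := by
  rcases eq_or_ne a 0 with rfl | ha
  · rw [map_zero, map_zero, map_zero, map_zero]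
  · have h1 : IsUnit (φ (MvPolynomial.C a)) :=
      (((isUnit_iff_ne_zero.2 ha).map (MvPolynomial.C (R := K) (σ := Fin 2))).map φ)
    obtain ⟨c, -, hc⟩ := MvPolynomial.isUnit_iff_eq_C_of_isReduced.1 h1
    rw [hc, constantCoeff_C]

/-- the induced automorphism of the field -/
noncomputable def ind (K : Type) [Field K] : RingAut (MvPolynomial (Fin 2) K) →* RingAut K :=
  MonoidHom.mk' (fun φ =>
    { toFun := fun a => constantCoeff (φ (MvPolynomial.C a))
      invFun := fun a => constantCoeff (φ⁻¹ (MvPolynomial.C a))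
      left_inv := fun a => by
        show constantCoeff (φ⁻¹ (MvPolynomial.C (constantCoeff (φ (MvPolynomial.C a))))) = a
        rw [← exists_C, ← RingAut.mul_apply, inv_mul_cancel, RingAut.one_apply, constantCoeff_C]
      right_inv := fun a => by
        show constantCoeff (φ (MvPolynomial.C (constantCoeff (φ⁻¹ (MvPolynomial.C a))))) = a
        rw [← exists_C, ← RingAut.mul_apply, mul_inv_cancel, RingAut.one_apply, constantCoeff_C]
      map_mul' := fun a b => by rw [map_mul, map_mul, map_mul]
      map_add' := fun a b => by rw [map_add, map_add, map_add] })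
    (fun φ ψ => RingEquiv.ext fun a => by
      show constantCoeff ((φ * ψ) (MvPolynomial.C a)) =
        constantCoeff (φ (MvPolynomial.C (constantCoeff (ψ (MvPolynomial.C a)))))
      rw [← exists_C, RingAut.mul_apply])

theorem ind_spec {K : Type} [Field K] (φ : RingAut (MvPolynomial (Fin 2) K)) (a : K) :
    φ (MvPolynomial.C a) = MvPolynomial.C (ind K φ a) := exists_C φ a

theorem good_field {K : Type} [Field K] [CharZero K] (h : C (GL (Fin 2) K)) : Good C K := by
  intro Q hQ
  have hp : Q.IsPrime := hQ.1.1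
  refine ⟨K, inferInstance, RingHom.id K, ?_, Or.inl ⟨inferInstance, h⟩⟩
  have h1 : RingHom.ker (RingHom.id K) = ⊥ := RingHom.ker_eq_bot_iff_eq_zero _ |>.2 fun _ h => h
  rw [h1]
  exact ((Ideal.eq_bot_or_top Q).resolve_right hp.ne_top).symm

theorem finite_orbits {K : Type} [Field K] [CharZero K] [Algebra.IsAlgebraic ℚ K] {G : Type}
    [Group G] (σ : G →* RingAut K) (a : K) : (Set.range fun g => σ g a).Finite := by
  have hint : IsIntegral ℚ a := Algebra.IsIntegral.isIntegral a
  refine (Polynomial.rootSet_finite (minpoly ℚ a) K).subset ?_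
  rintro _ ⟨g, rfl⟩
  rw [Polynomial.mem_rootSet_of_ne (minpoly.ne_zero hint)]
  have h1 := Polynomial.aeval_algHom_apply
    (((σ g : K ≃+* K) : K →+* K).toRatAlgHom) a (minpoly ℚ a)
  rw [minpoly.aeval, map_zero] at h1
  exact h1

/-- **fields which are algebraic over the rational numbers** -/
theorem field_semi (hC : ClosedE C) (hA : AcylClosed C)
    (hS : ∀ (S : Type) [Group S], Group.IsSolvable S → C S) {K : Type} [Field K] [CharZero K]
    [Algebra.IsAlgebraic ℚ K] (h : C (GL (Fin 2) K))
    (G : Subgroup (RingAut (MvPolynomial (Fin 2) K))) (hG : C (G.map (ind K))) : C G := by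
  refine semi hC hA hS (A := K) (good_field h) G.subtype ((ind K).comp G.subtype)
    (fun g a => ind_spec g.1 a) G.subtype_injective (finite_orbits _) ?_
  · have h1 : ((ind K).comp G.subtype).range = G.map (ind K) := by
      rw [MonoidHom.range_comp, Subgroup.range_subtype]
    rw [h1]
    exact hG

/-- **number fields** -/
theorem number_field (hC : ClosedE C) (hA : AcylClosed C)
    (hS : ∀ (S : Type) [Group S], Group.IsSolvable S → C S) {K : Type} [Field K] [NumberField K] :
    C (RingAut (MvPolynomial (Fin 2) K)) ↔ C (GL (Fin 2) K) := by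
  constructor
  · intro h
    refine hC.base.of_injective _ _ (MonoidHom.mk' (fun g : GL (Fin 2) K =>
      ((la g : Aut2 K) : MvPolynomial (Fin 2) K ≃+* MvPolynomial (Fin 2) K)) fun g g' => ?_) ?_ h
    · rw [map_mul]
      rfl
    · intro g g' hg
      apply Pool.Agent.H34.PT.la_inj
      apply AlgEquiv.ext
      intro p
      exact DFunLike.congr_fun (F := RingAut (MvPolynomial (Fin 2) K)) hg p
  · intro h
    have h1 : C (⊤ : Subgroup (RingAut (MvPolynomial (Fin 2) K))) := by
      refine field_semi hC hA hS h ⊤ ?_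
      have hfin : Finite (RingAut K) := by
        refine Finite.of_injective (β := K →ₐ[ℚ] K)
          (fun g => ((g : K ≃+* K) : K →+* K).toRatAlgHom) ?_
        intro g g' hg
        apply RingEquiv.ext
        intro a
        exact DFunLike.congr_fun hg a
      exact Pool.Agent.Y430.SS.of_finite hC.base _ inferInstance
    exact hC.base.of_injective _ _ (Subgroup.topEquiv
      (G := RingAut (MvPolynomial (Fin 2) K))).symm.toMonoidHom
      (Subgroup.topEquiv (G := RingAut (MvPolynomial (Fin 2) K))).symm.injective h1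

end Pool.Agent.H86.FJP
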